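import Pool.Agent.Lib_helper12.NZ.Fin.Main

/-!
Question Q1 of MP_3ea6d0_co (Noonan-Zeilberger for one pattern): the generating function of the
permutations avoiding the single pattern 12534 is not d-finite. This file passes from the field of
rational numbers to the field of complex numbers.
-/

set_option autoImplicit false

namespace Pool.Agent.Results.MP_3ea6d0_co.Pattern12534

/-- The permutation `s` of `{1, ..., n}` contains the pattern `q` of length `k`: there are positions
`f 1 < ... < f k` such that `s (f a) < s (f b)` exactly when `q a < q b`. -/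
def Contains {k n : ℕ} (s : Equiv.Perm (Fin n)) (q : Equiv.Perm (Fin k)) : Prop :=
  ∃ f : Fin k → Fin n, StrictMono f ∧ ∀ a b : Fin k, s (f a) < s (f b) ↔ q a < q b

/-- The number of permutations of length `n` which avoid `q`. -/
noncomputable def Av {k : ℕ} (q : Equiv.Perm (Fin k)) (n : ℕ) : ℕ :=
  Nat.card {s : Equiv.Perm (Fin n) // ¬ Contains s q}

/-- The formal power series `u` with complex coefficients satisfies a linear differential equation
with polynomial coefficients, the leading one nonzero. -/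
def DFinite (u : PowerSeries ℂ) : Prop :=
  ∃ (d : ℕ) (p : ℕ → Polynomial ℂ), 1 ≤ d ∧ p d ≠ 0 ∧
    ∑ j ∈ Finset.range (d + 1), (p j : PowerSeries ℂ) * (⇑(PowerSeries.derivative ℂ))^[j] u = 0

section descent
open PowerSeries

/-- apply a linear functional to the coefficients of a polynomial -/
noncomputable def mapc (φ : ℂ →ₗ[ℚ] ℚ) (p : Polynomial ℂ) : Polynomial ℚ :=
  ∑ n ∈ Finset.range (p.natDegree + 1), Polynomial.monomial n (φ (p.coeff n))

theorem coeff_mapc (φ : ℂ →ₗ[ℚ] ℚ) (p : Polynomial ℂ) (m : ℕ) :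
    (mapc φ p).coeff m = φ (p.coeff m) := by
  unfold mapc
  rw [Polynomial.finsetSum_coeff]
  simp only [Polynomial.coeff_monomial]
  rw [Finset.sum_ite_eq' (Finset.range (p.natDegree + 1)) m]
  split_ifs with h
  · rfl
  · rw [Finset.mem_range, not_lt] at h
    rw [Polynomial.coeff_eq_zero_of_natDegree_lt (by omega), map_zero]

theorem coeff_iter_cast (a : ℕ → ℕ) (j m : ℕ) :
    coeff m ((⇑(PowerSeries.derivative ℂ))^[j] (PowerSeries.mk fun n => (a n : ℂ))) =
      ((coeff m ((⇑(PowerSeries.derivative ℚ))^[j] (PowerSeries.mk fun n => (a n : ℚ))) : ℚ) : ℂ) := by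
  simp only [PowerSeries.coeff_iterate_derivative, PowerSeries.coeff_mk]
  push_cast
  rfl

theorem descent (a : ℕ → ℕ) (h : DFinite (PowerSeries.mk fun n => (a n : ℂ))) :
    ∃ (d : ℕ) (p : ℕ → Polynomial ℚ), p d ≠ 0 ∧
      ∑ i ∈ Finset.range (d + 1), (p i : PowerSeries ℚ) *
        (⇑(PowerSeries.derivative ℚ))^[i] (PowerSeries.mk fun n => (a n : ℚ)) = 0 := by
  obtain ⟨d, p, -, hp, hs⟩ := h
  obtain ⟨n0, hn0⟩ : ∃ n, (p d).coeff n ≠ 0 := by
    by_contra hc
    push Not at hc
    exact hp (Polynomial.ext (by simpa using hc))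
  obtain ⟨φ, hφ⟩ : ∃ φ : ℂ →ₗ[ℚ] ℚ, φ ((p d).coeff n0) ≠ 0 := by
    by_contra hc
    push Not at hc
    exact hn0 ((Module.forall_dual_apply_eq_zero_iff ℚ _).1 hc)
  refine ⟨d, fun j => mapc φ (p j), ?_, ?_⟩
  · intro hz
    apply hφ
    have hz' : mapc φ (p d) = 0 := hz
    rw [← coeff_mapc, hz', Polynomial.coeff_zero]
  · ext m
    have h1 := congrArg (fun F => φ (coeff m F)) hs
    simp only [map_sum, PowerSeries.coeff_mul, Polynomial.coeff_coe, map_zero] at h1
    simp only [map_sum, PowerSeries.coeff_mul, Polynomial.coeff_coe, map_zero]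
    rw [← h1]
    refine Finset.sum_congr rfl fun j _ => Finset.sum_congr rfl fun x _ => ?_
    rw [coeff_iter_cast, coeff_mapc]
    have h2 : ∀ (c : ℂ) (r : ℚ), φ (c * (r : ℂ)) = φ c * r := by
      intro c r
      have h3 : c * (r : ℂ) = r • c := by
        rw [mul_comm, Rat.smul_def]
      rw [h3, map_smul, smul_eq_mul, mul_comm]
    rw [h2]

end descent

/-- Let `q` be the pattern `12534`. The generating function of the number of permutations avoiding
`q` is not d-finite over the complex numbers. -/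
theorem result : ∃ q : Equiv.Perm (Fin 5), (q 0 = 0 ∧ q 1 = 1 ∧ q 2 = 4 ∧ q 3 = 2 ∧ q 4 = 3) ∧
    ¬ DFinite (PowerSeries.mk fun n => (Av q n : ℂ)) := by
  refine ⟨Pool.Agent.Lib_helper12.NZ.pat, by decide, ?_⟩
  intro h
  have hav : ∀ n, Av Pool.Agent.Lib_helper12.NZ.pat n = Pool.Agent.Lib_helper12.NZ.av n := by
    intro n
    unfold Av Pool.Agent.Lib_helper12.NZ.av
    apply Nat.card_congr
    apply Equiv.subtypeEquivRight
    intro s
    apply not_congr
    constructor
    · rintro ⟨f, hf, h⟩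
      exact ⟨OrderEmbedding.ofStrictMono f hf, fun i j => (h i j).symm⟩
    · rintro ⟨f, h⟩
      exact ⟨f, f.strictMono, fun i j => (h i j).symm⟩
  obtain ⟨d, p, hp, hr⟩ := descent _ h
  simp only [hav] at hr
  have hmu : 0 < Pool.Agent.Lib_helper12.NZ.muR := by
    unfold Pool.Agent.Lib_helper12.NZ.muR; positivity
  exact Pool.Agent.Lib_helper12.NZ.AR18 Pool.Agent.Lib_helper12.NZ.av
    Pool.Agent.Lib_helper12.NZ.muR hmu Pool.Agent.Lib_helper12.NZ.UB6
    (fun ρ h0 h1 => Pool.Agent.Lib_helper12.NZ.L7 ρ h0 h1) d p hp hr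

end Pool.Agent.Results.MP_3ea6d0_co.Pattern12534
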